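import Mathlib

namespace Pool.Agent.Results.MP_d9dcf6_co.Counter
open Finset

variable {n m : ℕ}

/-- the `i`-th column as a real vector -/
def col (V : Fin m → Fin n → ℤ) (i : Fin m) : Fin n → ℝ := fun r => (V i r : ℝ)

/-- the convex cone spanned by the columns indexed by `S` -/
def cone (V : Fin m → Fin n → ℤ) (S : Finset (Fin m)) : Set (Fin n → ℝ) :=
  {x | ∃ c : Fin m → ℝ, (∀ i, 0 ≤ c i) ∧ x = ∑ i ∈ S, c i • col V i}

/-- F-matrices (full rank follows from the columns generating the space as a cone) -/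
def FMatrix (V : Fin m → Fin n → ℤ) : Prop :=
  (∀ i, V i ≠ 0) ∧ (∀ i j, i ≠ j → ∀ t : ℝ, 0 < t → col V i ≠ t • col V j) ∧
    cone V univ = Set.univ ∧ ∀ i, univ.gcd (V i) = 1

/-- `S` indexes a cone of the family `𝓜` -/
def MCone (V : Fin m → Fin n → ℤ) (S : Finset (Fin m)) : Prop :=
  S.card = n ∧ LinearIndepOn ℝ (col V) (S : Set (Fin m)) ∧ ∀ j ∉ S, col V j ∉ cone V S

/-- pseudofans -/
def Pseudofan (V : Fin m → Fin n → ℤ) (C : Finset (Finset (Fin m))) : Prop :=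
  (∀ S ∈ C, MCone V S) ∧ (∀ j, ∃ S ∈ C, j ∈ S) ∧
    ∀ S ∈ C, ∀ a ∈ S, (∃! T, T ∈ C ∧ T ≠ S ∧ S.erase a ⊆ T) ∧
      ∀ T ∈ C, T ≠ S → S.erase a ⊆ T → ∃ φ : (Fin n → ℝ) →ₗ[ℝ] ℝ,
        (∀ i ∈ S.erase a, φ (col V i) = 0) ∧ 0 < φ (col V a) ∧ ∀ x ∈ cone V T, φ x ≤ 0

/-- the columns -/
def V0 : Fin 20 → Fin 3 → ℤ :=
  ![![1, 0, 0], ![-1, 0, 0], ![0, 1, 0], ![0, -1, 0], ![0, 0, 1],
    ![0, 0, -1], ![-5, -1, -2], ![6, 5, 1], ![-8, -7, -4], ![-5, 3, -8],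
    ![-2, -9, 4], ![-5, 7, 8], ![9, -8, 9], ![-1, -7, -2], ![2, 3, -7],
    ![7, -6, -8], ![-7, -4, 3], ![1, 8, 8], ![3, 3, 8], ![5, -1, 7]]

/-- the cones -/
def t : Fin 72 → Finset (Fin 20) :=
  ![{0, 3, 10}, {0, 3, 13}, {0, 10, 16}, {3, 10, 14}, {0, 8, 13}, {3, 9, 13},
    {0, 12, 16}, {6, 10, 16}, {3, 14, 15}, {10, 13, 14}, {0, 8, 15}, {8, 13, 16},
    {2, 9, 13}, {3, 8, 9}, {0, 7, 12}, {4, 12, 16}, {6, 9, 16}, {6, 10, 12},
    {2, 14, 15}, {3, 12, 15}, {5, 13, 14}, {10, 11, 13}, {0, 15, 17}, {1, 8, 15},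
    {8, 11, 16}, {11, 13, 16}, {2, 5, 13}, {2, 8, 9}, {3, 6, 8}, {0, 7, 14},
    {7, 10, 12}, {1, 4, 16}, {4, 11, 12}, {1, 9, 16}, {5, 6, 9}, {3, 6, 12},
    {2, 7, 15}, {2, 11, 14}, {12, 15, 19}, {5, 14, 17}, {2, 10, 11}, {0, 17, 19},
    {7, 15, 17}, {1, 6, 15}, {1, 8, 11}, {2, 5, 17}, {2, 6, 8}, {0, 9, 14},
    {7, 14, 18}, {7, 10, 19}, {1, 4, 9}, {4, 9, 11}, {11, 12, 19}, {0, 5, 9},
    {5, 6, 15}, {1, 2, 7}, {9, 11, 14}, {5, 15, 19}, {4, 14, 17}, {2, 4, 10},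
    {0, 5, 19}, {17, 18, 19}, {1, 7, 17}, {1, 2, 6}, {1, 11, 17}, {2, 4, 17},
    {4, 7, 18}, {4, 14, 18}, {4, 7, 19}, {4, 10, 19}, {11, 18, 19}, {11, 17, 18}]

/-- a spanning tree of the adjacency graph of the cones -/
def par : Fin 72 → Fin 72 :=
  ![0, 0, 0, 0, 1, 1, 2, 2, 3, 3, 4, 4, 5, 5, 6, 6, 7, 7, 8, 8, 9, 9, 10, 10,
    11, 11, 12, 12, 13, 14, 14, 15, 15, 16, 16, 17, 18, 18, 19, 20, 21, 22, 22, 23, 23, 26, 27, 29,
    29, 30, 31, 32, 32, 34, 34, 36, 37, 38, 39, 40, 41, 41, 42, 43, 44, 45, 48, 48, 49, 49, 52, 61]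

/-- determinant -/
def dt (i j k : Fin 20) : ℤ :=
  V0 i 0 * (V0 j 1 * V0 k 2 - V0 j 2 * V0 k 1) + V0 i 1 * (V0 j 2 * V0 k 0 - V0 j 0 * V0 k 2) +
    V0 i 2 * (V0 j 0 * V0 k 1 - V0 j 1 * V0 k 0)

/-- determinant as a linear form in the first vector -/
def lf (j k : Fin 20) : (Fin 3 → ℝ) →ₗ[ℝ] ℝ where
  toFun x := x 0 * ((V0 j 1 * V0 k 2 - V0 j 2 * V0 k 1 : ℤ) : ℝ) +
    x 1 * ((V0 j 2 * V0 k 0 - V0 j 0 * V0 k 2 : ℤ) : ℝ) +
    x 2 * ((V0 j 0 * V0 k 1 - V0 j 1 * V0 k 0 : ℤ) : ℝ)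
  map_add' x y := by simp only [Pi.add_apply]; ring
  map_smul' c x := by simp only [Pi.smul_apply, smul_eq_mul, RingHom.id_apply]; ring

lemma lf_col (i j k : Fin 20) : lf j k (col V0 i) = (dt i j k : ℝ) := by
  simp [lf, col, dt]

lemma lf_cone (S : Finset (Fin 20)) (j k : Fin 20) (h : ∀ i ∈ S, dt i j k ≤ 0) :
    ∀ x ∈ cone V0 S, lf j k x ≤ 0 := by
  rintro x ⟨c, hc, rfl⟩
  rw [map_sum]
  apply Finset.sum_nonpos; intro i hi
  rw [map_smul, lf_col, smul_eq_mul]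
  exact mul_nonpos_of_nonneg_of_nonpos (hc i) (by exact_mod_cast h i hi)

/-- local check at a facet -/
def P1 (s : Fin 72) (a : Fin 20) : Prop :=
  ∃ j ∈ t s, ∃ k ∈ t s, (∀ i ∈ (t s).erase a, dt i j k = 0) ∧ 0 < dt a j k ∧
    ∃ r : Fin 72, t r ≠ t s ∧ (t s).erase a ⊆ t r ∧ (∀ i ∈ t r, dt i j k ≤ 0) ∧
      ∀ q : Fin 72, (t s).erase a ⊆ t q → q = s ∨ q = r
instance (s : Fin 72) (a : Fin 20) : Decidable (P1 s a) := by unfold P1; infer_instance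
/-- emptiness check -/
def P2 (s : Fin 72) (l : Fin 20) : Prop :=
  ∃ j ∈ t s, ∃ k ∈ t s, (∀ i ∈ t s, dt i j k ≤ 0) ∧ 0 < dt l j k
instance (s : Fin 72) (a : Fin 20) : Decidable (P2 s a) := by unfold P2; infer_instance

lemma c1 : ∀ s : Fin 72, ∀ a ∈ t s, P1 s a := by decide +kernel
lemma c2 : ∀ s : Fin 72, ∀ l ∉ t s, P2 s l := by decide +kernel
lemma c3 : ∀ s : Fin 72, (t s).card = 3 := by decide +kernel
lemma c4 : ∀ j : Fin 20, ∃ s : Fin 72, j ∈ t s := by decide +kernel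
lemma c5 : ∀ s : Fin 72, s = 0 ∨ (par s < s ∧ t (par s) ≠ t s ∧
    (∃ a ∈ t s, (t s).erase a ⊆ t (par s)) ∧ ∃ a ∈ t (par s), (t (par s)).erase a ⊆ t s) := by
  decide +kernel
lemma c6 : ∀ i j : Fin 20, i ≠ j → (∃ k, dt i j k ≠ 0) ∨ ∃ r, V0 i r * V0 j r < 0 := by
  decide +kernel
lemma c7 : ∀ i _j k : Fin 20, dt i i k = 0 := by
  intro i j k; unfold dt; ring

lemma pseudo : Pseudofan V0 (univ.image t) := by
  refine ⟨?_, ?_, ?_⟩
  · intro S hS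
    obtain ⟨s, -, rfl⟩ := mem_image.1 hS
    refine ⟨c3 s, ?_, ?_⟩
    · rw [linearIndepOn_finset_iff]
      intro c hc a ha
      obtain ⟨j, -, k, -, h0, h1, -⟩ := c1 s a ha
      have := congrArg (lf j k) hc
      rw [map_sum, map_zero, ← Finset.add_sum_erase _ _ ha, Finset.sum_eq_zero, add_zero, map_smul,
        lf_col, smul_eq_mul, mul_eq_zero] at this
      · exact this.resolve_right (by exact_mod_cast h1.ne')
      · intro i hi; rw [map_smul, lf_col, h0 i hi]; simp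
    · intro l hl hc
      obtain ⟨j, -, k, -, h0, h1⟩ := c2 s l hl
      have := lf_cone _ j k h0 _ hc
      rw [lf_col] at this
      exact absurd (by exact_mod_cast this : dt l j k ≤ 0) (not_le.2 h1)
  · intro j
    obtain ⟨s, hs⟩ := c4 j
    exact ⟨_, mem_image_of_mem _ (mem_univ s), hs⟩
  · intro S hS a ha
    obtain ⟨s, -, rfl⟩ := mem_image.1 hS
    obtain ⟨j, -, k, -, h0, h1, r, r1, r2, r3, r4⟩ := c1 s a ha
    have uniq : ∀ T ∈ univ.image t, T ≠ t s → (t s).erase a ⊆ T → T = t r := by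
      intro T hT h1 h2
      obtain ⟨q, -, rfl⟩ := mem_image.1 hT
      rcases r4 q h2 with rfl | rfl
      · exact absurd rfl h1
      · rfl
    refine ⟨⟨t r, ⟨mem_image_of_mem _ (mem_univ r), r1, r2⟩, fun T hT => uniq T hT.1 hT.2.1 hT.2.2⟩,
      fun T hT h2 h3 => ⟨lf j k, ?_, ?_, ?_⟩⟩
    · intro i hi; rw [lf_col, h0 i hi]; simp
    · rw [lf_col]; exact_mod_cast h1
    · rw [uniq T hT h2 h3]; exact lf_cone _ j k r3

lemma fm : FMatrix V0 := by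
  refine ⟨by decide +kernel, ?_, ?_, by decide +kernel⟩
  · intro i j hij τ hτ h
    rcases c6 i j hij with ⟨k, hk⟩ | ⟨r, hr⟩
    · have := congrArg (lf j k) h
      rw [map_smul, lf_col, lf_col, c7 j j k] at this
      exact hk (by simpa using this)
    · have h1 := congrFun h r
      have h2 : ((V0 i r : ℝ)) * V0 j r < 0 := by exact_mod_cast hr
      simp only [col, Pi.smul_apply, smul_eq_mul] at h1
      rw [h1] at h2
      nlinarith [mul_nonneg hτ.le (mul_self_nonneg (V0 j r : ℝ))]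
  · apply Set.eq_univ_of_forall
    intro x
    refine ⟨![max (x 0) 0, max (-x 0) 0, max (x 1) 0, max (-x 1) 0, max (x 2) 0, max (-x 2) 0,
      0, 0, 0, 0, 0, 0, 0, 0, 0, 0, 0, 0, 0, 0], ?_, ?_⟩
    · intro i; fin_cases i <;> simp
    · ext r
      fin_cases r <;> simp [Fin.sum_univ_succ, col, V0, ← sub_eq_add_neg, max_zero_sub_max_neg_zero_eq_self]

lemma minimal (D : Finset (Finset (Fin 20))) (hD : D ⊆ univ.image t) (h : Pseudofan V0 D) :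
    D = univ.image t := by
  have step : ∀ S ∈ D, ∀ T ∈ univ.image t, T ≠ S → (∃ a ∈ S, S.erase a ⊆ T) → T ∈ D := by
    rintro S hS T hT h1 ⟨a, ha, h2⟩
    obtain ⟨T', ⟨b1, b2, b3⟩, -⟩ := (h.2.2 S hS a ha).1
    rw [((pseudo.2.2 S (hD hS) a ha).1.unique ⟨hT, h1, h2⟩ ⟨hD b1, b2, b3⟩)]
    exact b1
  have all : ∀ s : Fin 72, t s ∈ D ↔ t 0 ∈ D := by
    intro s
    induction s using WellFoundedLT.induction with
    | ind s ih =>
      rcases c5 s with rfl | ⟨h1, h2, h3, h4⟩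
      · rfl
      · rw [← ih _ h1]
        exact ⟨fun e => step _ e _ (mem_image_of_mem _ (mem_univ _)) h2 h3,
          fun e => step _ e _ (mem_image_of_mem _ (mem_univ _)) h2.symm h4⟩
  apply Finset.Subset.antisymm hD
  intro T hT
  obtain ⟨q, -, rfl⟩ := mem_image.1 hT
  obtain ⟨S, hS, -⟩ := h.2.1 0
  obtain ⟨s, -, rfl⟩ := mem_image.1 (hD hS)
  exact (all q).2 ((all s).1 hS)

theorem result : ∃ (V : Fin 20 → Fin 3 → ℤ) (C : Finset (Finset (Fin 20))),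
    FMatrix V ∧ Pseudofan V C ∧ (∀ D ⊆ C, Pseudofan V D → D = C) ∧
      ∃ S ∈ C, ∃ T ∈ C, S ≠ T ∧ (interior (cone V S) ∩ interior (cone V T)).Nonempty := by
  refine ⟨V0, univ.image t, fm, pseudo, minimal, {0, 5, 9}, by decide +kernel, {2, 5, 13},
    by decide +kernel, by decide, ![-1, 1, -4], ?_, ?_⟩
  · refine mem_interior.2 ⟨{x | 0 < x 0 + 5 / 3 * x 1} ∩ ({x | 0 < -x 2 - 8 / 3 * x 1} ∩
      {x | 0 < x 1 / 3}), ?_, ?_, by simp; norm_num⟩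
    · rintro x ⟨h1, h2, h3⟩
      refine ⟨fun i => if i = 0 then x 0 + 5 / 3 * x 1 else if i = 5 then -x 2 - 8 / 3 * x 1
        else x 1 / 3, fun i => ?_, ?_⟩
      · simp only [Set.mem_setOf_eq] at h1 h2 h3 ⊢
        split_ifs <;> linarith
      · rw [Finset.sum_insert (by decide), Finset.sum_pair (by decide)]
        ext r
        fin_cases r <;> simp [col, V0] <;> ring
    · exact (isOpen_lt (by fun_prop) (by fun_prop)).inter
        ((isOpen_lt (by fun_prop) (by fun_prop)).inter (isOpen_lt (by fun_prop) (by fun_prop)))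
  · refine mem_interior.2 ⟨{x | 0 < x 1 - 7 * x 0} ∩ ({x | 0 < -x 2 + 2 * x 0} ∩
      {x | 0 < -x 0}), ?_, ?_, by simp; norm_num⟩
    · rintro x ⟨h1, h2, h3⟩
      refine ⟨fun i => if i = 2 then x 1 - 7 * x 0 else if i = 5 then -x 2 + 2 * x 0
        else -x 0, fun i => ?_, ?_⟩
      · simp only [Set.mem_setOf_eq] at h1 h2 h3 ⊢
        split_ifs <;> linarith
      · rw [Finset.sum_insert (by decide), Finset.sum_pair (by decide)]
        ext r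
        fin_cases r <;> simp [col, V0] <;> ring
    · exact (isOpen_lt (by fun_prop) (by fun_prop)).inter
        ((isOpen_lt (by fun_prop) (by fun_prop)).inter (isOpen_lt (by fun_prop) (by fun_prop)))

end Pool.Agent.Results.MP_d9dcf6_co.Counter
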